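import Pool.Agent.H56.KAL.Stmts3

/-!
# Cauchy equation on an interval, second part

Row CAB of the board kal: chaining over good points.
-/

set_option autoImplicit false

namespace Pool.KAL

open Finset Real

/-- Overlapping windows of two good points. -/
lemma cab_overlap (M : ℕ) (γ : ℕ → ℝ) (r : ℝ) (hM : 0 < M) (y d : ℕ) (hd : 2 * d ≤ M)
    (h1 : 8 * ((range M).filter fun h => r < |γ (y + h) - γ y|).card ≤ M)
    (h2 : 8 * ((range M).filter fun h => r < |γ (y + d + h) - γ (y + d)|).card ≤ M) :
    |γ (y + d) - γ y| ≤ 2 * r := by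
  classical
  set S1 := (range M).filter fun h => r < |γ (y + h) - γ y| with hS1
  set S2 := (range M).filter fun h => r < |γ (y + d + h) - γ (y + d)| with hS2
  -- the bad points in `range (M - d)`
  have hex : ∃ h ∈ range (M - d), h ∉ S2 ∧ h + d ∉ S1 := by
    by_contra hcon
    push Not at hcon
    have hsub : range (M - d) ⊆ S2 ∪ (S1.image fun h => h - d) := by
      intro h hh
      rw [mem_union, mem_image]
      by_cases hb : h ∈ S2
      · exact Or.inl hb
      · exact Or.inr ⟨h + d, hcon h hh hb, by omega⟩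
    have hc := card_le_card hsub
    rw [card_range] at hc
    have hc2 := hc.trans (card_union_le _ _)
    have hc3 : (S1.image fun h => h - d).card ≤ S1.card := card_image_le
    omega
  obtain ⟨h, hh, hh2, hh1⟩ := hex
  rw [mem_range] at hh
  rw [hS2, mem_filter] at hh2
  rw [hS1, mem_filter] at hh1
  have a1 : |γ (y + (h + d)) - γ y| ≤ r := by
    by_contra hcon
    exact hh1 ⟨mem_range.2 (by omega), not_le.1 hcon⟩
  have a2 : |γ (y + d + h) - γ (y + d)| ≤ r := by
    by_contra hcon
    exact hh2 ⟨mem_range.2 (by omega), not_le.1 hcon⟩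
  have e : y + (h + d) = y + d + h := by ring
  rw [e] at a1
  have a3 : γ (y + d) - γ y = (γ (y + d + h) - γ y) - (γ (y + d + h) - γ (y + d)) := by ring
  rw [a3]
  calc |(γ (y + d + h) - γ y) - (γ (y + d + h) - γ (y + d))|
      ≤ |γ (y + d + h) - γ y| + |γ (y + d + h) - γ (y + d)| := abs_sub _ _
    _ ≤ r + r := add_le_add a1 a2
    _ = 2 * r := by ring

/-- The chain of good points. -/
lemma cab_chain (N M : ℕ) (γ : ℕ → ℝ) (r : ℝ) (hM : 2 ≤ M) (hN : 2 * M ≤ N) (hr : 0 ≤ r)
    (G : Finset ℕ) (hGc : 8 * G.card < M)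
    (hgood : ∀ y d : ℕ, y + d < N → y ∉ G → y + d ∉ G → 2 * d ≤ M →
      |γ (y + d) - γ y| ≤ 2 * r) :
    ∃ A : ℝ, ∀ y < N, y ∉ G → |γ y - A| ≤ 2 * r * (1 + 4 * y / M) := by
  classical
  have hMr : (0 : ℝ) < M := by exact_mod_cast (by omega : 0 < M)
  have hex : ∃ y, y < N ∧ y ∉ G := by
    by_contra hcon
    push Not at hcon
    have hsub : range N ⊆ G := fun y hy => hcon y (mem_range.1 hy)
    have := card_le_card hsub
    rw [card_range] at this
    omega
  set g0 := Nat.find hex with hg0
  have hg0s : g0 < N ∧ g0 ∉ G := Nat.find_spec hex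
  have hg0m : ∀ y, y < N → y ∉ G → g0 ≤ y := fun y h1 h2 => Nat.find_min' hex ⟨h1, h2⟩
  refine ⟨γ g0, ?_⟩
  intro y
  induction y using Nat.strong_induction_on with
  | _ y ih =>
    intro hy hyG
    have hge := hg0m y hy hyG
    have hy0 : (0 : ℝ) ≤ 4 * y / M := by positivity
    by_cases hc : 2 * (y - g0) ≤ M
    · have := hgood g0 (y - g0) (by omega) hg0s.2 (by rw [Nat.add_sub_cancel' hge]; exact hyG) hc
      rw [Nat.add_sub_cancel' hge] at this
      refine this.trans ?_
      nlinarith [mul_nonneg hr hy0]
    · -- a good point in the middle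
      have hex2 : ∃ a ∈ Icc ((M + 3) / 4) (M / 2), y - a ∉ G := by
        by_contra hcon
        push Not at hcon
        have hsub : (Icc ((M + 3) / 4) (M / 2)).image (fun a => y - a) ⊆ G := by
          intro z hz
          rw [mem_image] at hz
          obtain ⟨a, ha, rfl⟩ := hz
          exact hcon a ha
        have hcard : ((Icc ((M + 3) / 4) (M / 2)).image (fun a => y - a)).card =
            (Icc ((M + 3) / 4) (M / 2)).card := by
          apply card_image_of_injOn
          intro a ha b hb hab
          simp only [coe_Icc, Set.mem_Icc] at ha hb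
          simp only at hab
          omega
        have hle := card_le_card hsub
        rw [hcard, Nat.card_Icc] at hle
        omega
      obtain ⟨a, ha, haG⟩ := hex2
      rw [mem_Icc] at ha
      have ha0 : 1 ≤ a := by omega
      have hay : a < y := by omega
      have h1 := ih (y - a) (by omega) (by omega) haG
      have h2 := hgood (y - a) a (by omega) haG (by rw [Nat.sub_add_cancel hay.le]; exact hyG)
        (by omega)
      rw [Nat.sub_add_cancel hay.le] at h2
      have e : γ y - γ g0 = (γ y - γ (y - a)) + (γ (y - a) - γ g0) := by ring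
      rw [e]
      refine (abs_add_le _ _).trans ?_
      have hcast : ((y - a : ℕ) : ℝ) = (y : ℝ) - a := Nat.cast_sub hay.le
      rw [hcast] at h1
      have ha4 : (M : ℝ) ≤ 4 * a := by
        have : M ≤ 4 * a := by omega
        exact_mod_cast this
      have h3 : (1 : ℝ) + 4 * ((y : ℝ) - a) / M ≤ 4 * y / M := by
        rw [← sub_nonneg]
        have : 4 * (y : ℝ) / M - (1 + 4 * ((y : ℝ) - a) / M) = (4 * a - M) / M := by
          field_simp
          ring
        rw [this]
        apply div_nonneg _ hMr.le
        linarith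
      have h4 : 2 * r * (1 + 4 * ((y : ℝ) - a) / M) ≤ 2 * r * (4 * y / M) :=
        mul_le_mul_of_nonneg_left h3 (by positivity)
      calc |γ y - γ (y - a)| + |γ (y - a) - γ g0| ≤ 2 * r + 2 * r * (4 * y / M) := by linarith
        _ = 2 * r * (1 + 4 * y / M) := by ring

/-- Row CAB. -/
theorem cab_thm (hcau : CAUStmt) : CABStmt := by
  classical
  obtain ⟨e1, he1, C1, hC1, hcau⟩ := hcau
  have hK : (0 : ℝ) < 1 + C1 := by linarith
  refine ⟨min e1 (1 / (128 * (1 + C1))), lt_min he1 (by positivity), 9 * (1 + C1), by linarith,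
    ?_⟩
  intro N M β F ρ ε hM hN hρ hε hεN hbad
  have hMr : (0 : ℝ) < M := by exact_mod_cast (by omega : 0 < M)
  have hNr : (0 : ℝ) < N := by exact_mod_cast (by omega : 0 < N)
  have hNM : 2 * (M : ℝ) ≤ N := by exact_mod_cast hN
  have hεe1 : ε ≤ e1 := by
    have h1 : ε * N ≤ e1 * M := hεN.trans (mul_le_mul_of_nonneg_right (min_le_left _ _) hMr.le)
    have h2 : ε * M ≤ ε * N := mul_le_mul_of_nonneg_left (by linarith) hε
    have h3 : ε * M ≤ e1 * M := h2.trans h1
    exact le_of_mul_le_mul_right h3 hMr
  obtain ⟨B, hB⟩ := hcau N M β F ρ ε (by omega) hN hρ hε hεe1 hbad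
  set K : ℝ := 1 + C1 with hKdef
  set γ : ℕ → ℝ := fun y => β y - B * y with hγ
  set HB := (range M).filter fun h => C1 * ρ < |F h - B * h| with hHB
  -- bad pairs
  have hpairs : ((((range N) ×ˢ (range M)).filter fun a =>
      K * ρ < |γ (a.1 + a.2) - γ a.1|).card : ℝ) ≤ K * ε * (N * M) := by
    have hsub : (((range N) ×ˢ (range M)).filter fun a => K * ρ < |γ (a.1 + a.2) - γ a.1|) ⊆
        (((range N) ×ˢ (range M)).filter fun a => ρ < |β (a.1 + a.2) - β a.1 - F a.2|) ∪
        ((range N) ×ˢ HB) := by
      intro a ha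
      rw [mem_filter, mem_product] at ha
      obtain ⟨⟨ha1, ha2⟩, ha3⟩ := ha
      rw [mem_union]
      by_cases hb : ρ < |β (a.1 + a.2) - β a.1 - F a.2|
      · left
        rw [mem_filter, mem_product]
        exact ⟨⟨ha1, ha2⟩, hb⟩
      · right
        rw [mem_product]
        refine ⟨ha1, ?_⟩
        rw [hHB, mem_filter]
        refine ⟨ha2, ?_⟩
        by_contra hcon
        rw [not_lt] at hb hcon
        have e : γ (a.1 + a.2) - γ a.1 =
            (β (a.1 + a.2) - β a.1 - F a.2) + (F a.2 - B * a.2) := by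
          simp only [hγ]
          push_cast
          ring
        rw [e] at ha3
        have := abs_add_le (β (a.1 + a.2) - β a.1 - F a.2) (F a.2 - B * a.2)
        have h5 : K * ρ = ρ + C1 * ρ := by rw [hKdef]; ring
        linarith
    have h1 := (card_le_card hsub).trans (card_union_le _ _)
    rw [card_product, card_range] at h1
    have h2 : ((((range N) ×ˢ (range M)).filter fun a =>
        K * ρ < |γ (a.1 + a.2) - γ a.1|).card : ℝ) ≤
        ((((range N) ×ˢ (range M)).filter fun a =>
          ρ < |β (a.1 + a.2) - β a.1 - F a.2|).card : ℝ) + N * HB.card := by exact_mod_cast h1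
    have h3 : (N : ℝ) * HB.card ≤ N * (C1 * ε * M) := mul_le_mul_of_nonneg_left hB hNr.le
    calc _ ≤ _ := h2
      _ ≤ ε * (N * M) + N * (C1 * ε * M) := add_le_add hbad h3
      _ = K * ε * (N * M) := by rw [hKdef]; ring
  -- the number of bad steps of a point
  set b : ℕ → ℕ := fun y => ((range M).filter fun h => K * ρ < |γ (y + h) - γ y|).card with hb
  have hsum : (∑ y ∈ range N, (b y : ℝ)) ≤ K * ε * (N * M) := by
    refine le_trans (le_of_eq ?_) hpairs
    have : (((range N) ×ˢ (range M)).filter fun a => K * ρ < |γ (a.1 + a.2) - γ a.1|).card =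
        ∑ y ∈ range N, b y := by
      rw [card_filter, sum_product]
      refine sum_congr rfl fun y _ => ?_
      simp only [hb]
      rw [card_filter]
    rw [this]
    push_cast
    rfl
  set G := (range N).filter fun y => M < 8 * b y with hG
  have hGcard : (G.card : ℝ) ≤ 8 * K * ε * N := by
    have h1 : (G.card : ℝ) * (M / 8) ≤ ∑ y ∈ range N, (b y : ℝ) := by
      calc (G.card : ℝ) * (M / 8) = ∑ y ∈ G, ((M : ℝ) / 8) := by rw [sum_const, nsmul_eq_mul]
        _ ≤ ∑ y ∈ G, (b y : ℝ) := by
            refine sum_le_sum fun y hy => ?_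
            rw [hG, mem_filter] at hy
            have : (M : ℝ) < 8 * b y := by exact_mod_cast hy.2
            linarith
        _ ≤ ∑ y ∈ range N, (b y : ℝ) :=
            sum_le_sum_of_subset_of_nonneg (filter_subset _ _) fun _ _ _ => by positivity
    have h2 : (G.card : ℝ) * (M / 8) ≤ (8 * K * ε * N) * (M / 8) := by
      calc (G.card : ℝ) * (M / 8) ≤ K * ε * (N * M) := h1.trans hsum
        _ = (8 * K * ε * N) * (M / 8) := by ring
    exact le_of_mul_le_mul_right h2 (by positivity)
  have hGM : 8 * G.card < M := by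
    have h1 : ε * N ≤ 1 / (128 * K) * M :=
      hεN.trans (mul_le_mul_of_nonneg_right (min_le_right _ _) hMr.le)
    have h2 : 8 * (G.card : ℝ) ≤ 64 * K * (ε * N) := by nlinarith
    have h3 : 64 * K * (ε * N) ≤ 64 * K * (1 / (128 * K) * M) :=
      mul_le_mul_of_nonneg_left h1 (by positivity)
    have h4 : 64 * K * (1 / (128 * K) * M) = M / 2 := by
      field_simp
      ring
    have h5 : 8 * (G.card : ℝ) < M := by linarith
    exact_mod_cast h5
  have hgood : ∀ y d : ℕ, y + d < N → y ∉ G → y + d ∉ G → 2 * d ≤ M →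
      |γ (y + d) - γ y| ≤ 2 * (K * ρ) := by
    intro y d hyd hy1 hy2 hd
    refine cab_overlap M γ (K * ρ) (by omega) y d hd ?_ ?_
    · by_contra hcon
      apply hy1
      rw [hG, mem_filter, mem_range]
      exact ⟨by omega, not_le.1 hcon⟩
    · by_contra hcon
      apply hy2
      rw [hG, mem_filter, mem_range]
      exact ⟨by omega, not_le.1 hcon⟩
  obtain ⟨A, hA⟩ := cab_chain N M γ (K * ρ) hM hN (by positivity) G hGM hgood
  refine ⟨A, B, ?_, ?_⟩
  · refine le_trans ?_ (hB.trans ?_)
    · have hsub : ((range M).filter fun h => 9 * K * ρ < |F h - B * h|) ⊆ HB := by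
        intro h hh
        rw [mem_filter] at hh
        rw [hHB, mem_filter]
        refine ⟨hh.1, lt_of_le_of_lt ?_ hh.2⟩
        have : C1 ≤ 9 * K := by rw [hKdef]; linarith
        exact mul_le_mul_of_nonneg_right this hρ
      exact_mod_cast card_le_card hsub
    · have : C1 ≤ 9 * K := by rw [hKdef]; linarith
      have h1 : 0 ≤ ε * M := by positivity
      nlinarith
  · refine le_trans ?_ (hGcard.trans ?_)
    · have hsub : ((range N).filter fun y => 9 * K * ρ * N / M < |β y - A - B * y|) ⊆ G := by
        intro y hy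
        rw [mem_filter, mem_range] at hy
        by_contra hcon
        have h1 := hA y hy.1 hcon
        have e : β y - A - B * y = γ y - A := by simp only [hγ]; ring
        rw [e] at hy
        have hyN : (y : ℝ) ≤ N := by exact_mod_cast hy.1.le
        have h2 : (1 : ℝ) + 4 * y / M ≤ (9 / 2) * (N / M) := by
          have h21 : 4 * (y : ℝ) / M ≤ 4 * N / M := by
            apply div_le_div_of_nonneg_right _ hMr.le
            linarith
          have h22 : (1 : ℝ) ≤ (1 / 2) * (N / M) := by
            rw [← sub_nonneg]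
            have : (1 / 2 : ℝ) * (N / M) - 1 = (N - 2 * M) / (2 * M) := by
              field_simp
            rw [this]
            apply div_nonneg _ (by positivity)
            linarith
          have h23 : 4 * (N : ℝ) / M = 4 * (N / M) := by ring
          linarith
        have h3 : 2 * (K * ρ) * (1 + 4 * y / M) ≤ 2 * (K * ρ) * ((9 / 2) * (N / M)) :=
          mul_le_mul_of_nonneg_left h2 (by positivity)
        have h4 : 2 * (K * ρ) * ((9 / 2) * (N / M)) = 9 * K * ρ * N / M := by ring
        linarith [hy.2]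
      exact_mod_cast card_le_card hsub
    · have h1 : 0 ≤ K * ε * N := by positivity
      nlinarith

end Pool.KAL
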