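import Mathlib

/-!
# Closure lemma (K_C48, sec. 1)

A function `F (t, y)` which is polynomial in `y` (coefficients are arbitrary functions of `t`), and
quadratic in `t` along the lines `y = y_k + t w_i` for four slopes `w_i`, is a polynomial of total
degree at most two: with errors.
-/

set_option autoImplicit false

namespace Pool.KAL

open Finset Polynomial

/-- The hypotheses of the closure lemma: `T` is a set of times, `t` are four separated times in it,
`w` four separated slopes, `y` are `d + 1` separated nodes, and `F (s, z) = ∑ f j s * z ^ j` is,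
up to `δ`, quadratic in `s` along the lines `z = y k + s * w i`. -/
structure CLOData (d : ℕ) (c : ℝ) (T : Set ℝ) (t w y : ℕ → ℝ) (f : ℕ → ℝ → ℝ) (δ : ℝ) : Prop where
  del : 0 ≤ δ
  bT : ∀ s ∈ T, |s| ≤ 1
  tT : ∀ i < 4, t i ∈ T
  ts : ∀ i < 4, ∀ j < 4, i ≠ j → c ≤ |t i - t j|
  wb : ∀ i < 4, |w i| ≤ 1
  ws : ∀ i < 4, ∀ j < 4, i ≠ j → c ≤ |w i - w j|
  yb : ∀ k < d + 1, |y k| ≤ 1
  ys : ∀ k < d + 1, ∀ l < d + 1, k ≠ l → c ≤ |y k - y l|
  quad : ∀ i < 4, ∀ k < d + 1, ∃ q0 q1 q2 : ℝ, ∀ s ∈ T,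
    |∑ j ∈ range (d + 1), f j s * (y k + s * w i) ^ j - (q0 + q1 * s + q2 * s ^ 2)| ≤ δ

/-- **Closure lemma.** -/
def CLOStmt : Prop :=
  ∀ (d : ℕ) (c : ℝ), 0 < c → ∃ C : ℝ, 1 ≤ C ∧ ∀ (T : Set ℝ) (t w y : ℕ → ℝ) (f : ℕ → ℝ → ℝ)
    (δ : ℝ), CLOData d c T t w y f δ →
    ∃ g00 g10 g01 g20 g11 g02 : ℝ, ∀ s ∈ T, ∀ z : ℝ, |z| ≤ 1 →
      |∑ j ∈ range (d + 1), f j s * z ^ j -
        (g00 + g10 * s + g01 * z + g20 * s ^ 2 + g11 * (s * z) + g02 * z ^ 2)| ≤ C * δ

/-- The coefficients of a polynomial are controlled by its values at separated nodes. -/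
lemma clo_coef (c : ℝ) (hc : 0 < c) : ∀ d : ℕ, ∃ C : ℝ, 1 ≤ C ∧ ∀ (p : ℝ[X]) (y : ℕ → ℝ) (δ : ℝ),
    0 ≤ δ → p.natDegree ≤ d → (∀ k < d + 1, |y k| ≤ 1) →
    (∀ k < d + 1, ∀ l < d + 1, k ≠ l → c ≤ |y k - y l|) →
    (∀ k < d + 1, |p.eval (y k)| ≤ δ) → ∀ i, |p.coeff i| ≤ C * δ := by
  intro d
  induction d with
  | zero =>
    refine ⟨1, le_refl _, ?_⟩
    intro p y δ hδ hp _ _ hv i
    have hp0 : p = Polynomial.C (p.coeff 0) := eq_C_of_natDegree_le_zero hp
    have h0 := hv 0 (by norm_num)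
    rw [hp0, eval_C] at h0
    rw [one_mul]
    rcases Nat.eq_zero_or_pos i with hi | hi
    · rw [hi]
      exact h0
    · rw [coeff_eq_zero_of_natDegree_lt (by omega), abs_zero]
      exact hδ
  | succ d ih =>
    obtain ⟨C, hC, ih⟩ := ih
    refine ⟨4 * C / c + 1, ?_, ?_⟩
    · have : 0 ≤ 4 * C / c := by positivity
      linarith
    intro p y δ hδ hp hyb hys hv i
    set z := y (d + 1) with hz
    set q := p /ₘ (X - Polynomial.C z) with hq
    have hmod : p = (X - Polynomial.C z) * q + Polynomial.C (p.eval z) := by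
      have h1 := modByMonic_add_div p (X - Polynomial.C z)
      rw [modByMonic_X_sub_C_eq_C_eval] at h1
      rw [hq, add_comm]
      exact h1.symm
    have hqd : q.natDegree ≤ d := by
      rw [hq, natDegree_divByMonic _ (monic_X_sub_C z), natDegree_X_sub_C]
      omega
    have hzv : |p.eval z| ≤ δ := hv (d + 1) (by omega)
    have hqv : ∀ k < d + 1, |q.eval (y k)| ≤ 2 * δ / c := by
      intro k hk
      have h1 := hys k (by omega) (d + 1) (by omega) (by omega)
      have h2 := hv k (by omega)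
      have h3 : p.eval (y k) = (y k - z) * q.eval (y k) + p.eval z := by
        conv_lhs => rw [hmod]
        simp only [eval_add, eval_mul, eval_sub, eval_X, eval_C]
      have h4 : (y k - z) * q.eval (y k) = p.eval (y k) - p.eval z := by linarith
      have h5 : |y k - z| * |q.eval (y k)| ≤ 2 * δ := by
        rw [← abs_mul, h4]
        exact (abs_sub _ _).trans (by linarith)
      rw [le_div_iff₀ hc]
      have h6 : |q.eval (y k)| * c ≤ |q.eval (y k)| * |y k - z| :=
        mul_le_mul_of_nonneg_left h1 (abs_nonneg _)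
      linarith
    have hqc := ih q y (2 * δ / c) (by positivity) hqd (fun k hk => hyb k (by omega))
      (fun k hk l hl => hys k (by omega) l (by omega)) hqv
    have hzb : |z| ≤ 1 := hyb (d + 1) (by omega)
    have hcoef : |p.coeff i| ≤ 2 * (C * (2 * δ / c)) + δ := by
      rw [hmod, coeff_add, sub_mul, coeff_sub, coeff_C_mul]
      have h1 : |(X * q).coeff i| ≤ C * (2 * δ / c) := by
        rcases i with _ | i
        · rw [mul_coeff_zero, coeff_X_zero, zero_mul, abs_zero]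
          positivity
        · rw [coeff_X_mul]
          exact hqc i
      have h2 : |z * q.coeff i| ≤ C * (2 * δ / c) := by
        rw [abs_mul]
        calc |z| * |q.coeff i| ≤ 1 * |q.coeff i| := mul_le_mul_of_nonneg_right hzb (abs_nonneg _)
          _ ≤ C * (2 * δ / c) := by rw [one_mul]; exact hqc i
      have h3 : |(Polynomial.C (p.eval z)).coeff i| ≤ δ := by
        rw [coeff_C]
        split_ifs
        · exact hzv
        · rw [abs_zero]; exact hδ
      calc |(X * q).coeff i - z * q.coeff i + (Polynomial.C (p.eval z)).coeff i|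
          ≤ |(X * q).coeff i - z * q.coeff i| + |(Polynomial.C (p.eval z)).coeff i| :=
            abs_add_le _ _
        _ ≤ (|(X * q).coeff i| + |z * q.coeff i|) + δ := add_le_add (abs_sub _ _) h3
        _ ≤ 2 * (C * (2 * δ / c)) + δ := by linarith
    refine hcoef.trans (le_of_eq ?_)
    ring

/-- The Lagrange weights of three nodes. -/
noncomputable def cloL (t : ℕ → ℝ) (m : ℕ) (s : ℝ) : ℝ :=
  if m = 0 then (s - t 1) * (s - t 2) / ((t 0 - t 1) * (t 0 - t 2))
  else if m = 1 then (s - t 0) * (s - t 2) / ((t 1 - t 0) * (t 1 - t 2))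
  else (s - t 0) * (s - t 1) / ((t 2 - t 0) * (t 2 - t 1))

/-- Interpolation error. -/
noncomputable def rho (t : ℕ → ℝ) (s : ℝ) (f : ℝ → ℝ) : ℝ :=
  f s - (cloL t 0 s * f (t 0) + cloL t 1 s * f (t 1) + cloL t 2 s * f (t 2))

lemma rho_sum {ι : Type} (S : Finset ι) (t : ℕ → ℝ) (s : ℝ) (g : ι → ℝ → ℝ) :
    rho t s (fun u => ∑ j ∈ S, g j u) = ∑ j ∈ S, rho t s (g j) := by
  simp only [rho, mul_sum, ← sum_add_distrib, ← sum_sub_distrib]

lemma rho_smul (t : ℕ → ℝ) (s a : ℝ) (g : ℝ → ℝ) :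
    rho t s (fun u => a * g u) = a * rho t s g := by
  simp only [rho]
  ring

lemma rho_sub (t : ℕ → ℝ) (s : ℝ) (g h : ℝ → ℝ) :
    rho t s (fun u => g u - h u) = rho t s g - rho t s h := by
  simp only [rho]
  ring

lemma rho_add (t : ℕ → ℝ) (s : ℝ) (g h : ℝ → ℝ) :
    rho t s (fun u => g u + h u) = rho t s g + rho t s h := by
  simp only [rho]
  ring

/-- The weights are bounded. -/
lemma cloL_le (c : ℝ) (hc : 0 < c) (t : ℕ → ℝ) (ht : ∀ i < 4, |t i| ≤ 1)
    (hts : ∀ i < 4, ∀ j < 4, i ≠ j → c ≤ |t i - t j|) (m : ℕ) (s : ℝ) (hs : |s| ≤ 1) :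
    |cloL t m s| ≤ 4 / c ^ 2 := by
  have key : ∀ i j k l n o : ℕ, i < 4 → j < 4 → k < 4 → l < 4 → n < 4 → o < 4 → k ≠ l → n ≠ o →
      |(s - t i) * (s - t j) / ((t k - t l) * (t n - t o))| ≤ 4 / c ^ 2 := by
    intro i j k l n o hi hj hk hl hn ho hkl hno
    rw [abs_div, abs_mul, abs_mul]
    have h1 : |s - t i| ≤ 2 := (abs_sub _ _).trans (by linarith [ht i hi])
    have h2 : |s - t j| ≤ 2 := (abs_sub _ _).trans (by linarith [ht j hj])
    have h3 := hts k hk l hl hkl
    have h4 := hts n hn o ho hno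
    apply div_le_div₀ (by norm_num)
    · calc |s - t i| * |s - t j| ≤ 2 * 2 :=
          mul_le_mul h1 h2 (abs_nonneg _) (by norm_num)
        _ = 4 := by norm_num
    · positivity
    · rw [pow_two]
      exact mul_le_mul h3 h4 hc.le (abs_nonneg _)
  unfold cloL
  split_ifs
  · exact key 1 2 0 1 0 2 (by norm_num) (by norm_num) (by norm_num) (by norm_num) (by norm_num)
      (by norm_num) (by norm_num) (by norm_num)
  · exact key 0 2 1 0 1 2 (by norm_num) (by norm_num) (by norm_num) (by norm_num) (by norm_num)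
      (by norm_num) (by norm_num) (by norm_num)
  · exact key 0 1 2 0 2 1 (by norm_num) (by norm_num) (by norm_num) (by norm_num) (by norm_num)
      (by norm_num) (by norm_num) (by norm_num)

/-- The interpolation error of a small function. -/
lemma rho_le (c : ℝ) (hc : 0 < c) (T : Set ℝ) (hT : ∀ s ∈ T, |s| ≤ 1) (t : ℕ → ℝ)
    (ht : ∀ i < 4, t i ∈ T) (hts : ∀ i < 4, ∀ j < 4, i ≠ j → c ≤ |t i - t j|) (f : ℝ → ℝ) (K : ℝ)
    (hf : ∀ s ∈ T, |f s| ≤ K) (s : ℝ) (hs : s ∈ T) : |rho t s f| ≤ (1 + 12 / c ^ 2) * K := by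
  have hL := fun m => cloL_le c hc t (fun i hi => hT _ (ht i hi)) hts m s (hT s hs)
  have hK : 0 ≤ K := (abs_nonneg _).trans (hf s hs)
  have key : ∀ m < 3, |cloL t m s * f (t m)| ≤ 4 / c ^ 2 * K := by
    intro m hm
    rw [abs_mul]
    exact mul_le_mul (hL m) (hf _ (ht m (by omega))) (abs_nonneg _) (by positivity)
  have h0 := key 0 (by norm_num)
  have h1 := key 1 (by norm_num)
  have h2 := key 2 (by norm_num)
  have h3 := hf s hs
  unfold rho
  rw [abs_le] at *
  have e : (1 + 12 / c ^ 2) * K = K + 4 / c ^ 2 * K + 4 / c ^ 2 * K + 4 / c ^ 2 * K := by ring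
  rw [e]
  constructor
  · linarith [h0.1, h0.2, h1.1, h1.2, h2.1, h2.2, h3.1, h3.2]
  · linarith [h0.1, h0.2, h1.1, h1.2, h2.1, h2.2, h3.1, h3.2]

/-- The interpolation error vanishes on quadratic polynomials. -/
lemma rho_quad (c : ℝ) (hc : 0 < c) (t : ℕ → ℝ)
    (hts : ∀ i < 4, ∀ j < 4, i ≠ j → c ≤ |t i - t j|) (s q0 q1 q2 : ℝ) :
    rho t s (fun u => q0 + q1 * u + q2 * u ^ 2) = 0 := by
  have h01 : t 0 - t 1 ≠ 0 := by
    intro h
    have := hts 0 (by norm_num) 1 (by norm_num) (by norm_num)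
    rw [h, abs_zero] at this
    linarith
  have h02 : t 0 - t 2 ≠ 0 := by
    intro h
    have := hts 0 (by norm_num) 2 (by norm_num) (by norm_num)
    rw [h, abs_zero] at this
    linarith
  have h12 : t 1 - t 2 ≠ 0 := by
    intro h
    have := hts 1 (by norm_num) 2 (by norm_num) (by norm_num)
    rw [h, abs_zero] at this
    linarith
  have h10 : t 1 - t 0 ≠ 0 := fun h => h01 (by linarith)
  have h20 : t 2 - t 0 ≠ 0 := fun h => h02 (by linarith)
  have h21 : t 2 - t 1 ≠ 0 := fun h => h12 (by linarith)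
  simp only [rho, cloL, one_ne_zero, if_true, if_false, OfNat.ofNat_ne_zero, OfNat.ofNat_ne_one]
  field_simp
  ring

/-- The interpolation error of the cube. -/
lemma rho_cube (c : ℝ) (hc : 0 < c) (t : ℕ → ℝ)
    (hts : ∀ i < 4, ∀ j < 4, i ≠ j → c ≤ |t i - t j|) (s : ℝ) :
    rho t s (fun u => u ^ 3) = (s - t 0) * (s - t 1) * (s - t 2) := by
  have h01 : t 0 - t 1 ≠ 0 := by
    intro h
    have := hts 0 (by norm_num) 1 (by norm_num) (by norm_num)
    rw [h, abs_zero] at this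
    linarith
  have h02 : t 0 - t 2 ≠ 0 := by
    intro h
    have := hts 0 (by norm_num) 2 (by norm_num) (by norm_num)
    rw [h, abs_zero] at this
    linarith
  have h12 : t 1 - t 2 ≠ 0 := by
    intro h
    have := hts 1 (by norm_num) 2 (by norm_num) (by norm_num)
    rw [h, abs_zero] at this
    linarith
  have h10 : t 1 - t 0 ≠ 0 := fun h => h01 (by linarith)
  have h20 : t 2 - t 0 ≠ 0 := fun h => h02 (by linarith)
  have h21 : t 2 - t 1 ≠ 0 := fun h => h12 (by linarith)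
  simp only [rho, cloL, one_ne_zero, if_true, if_false, OfNat.ofNat_ne_zero, OfNat.ofNat_ne_one]
  field_simp
  ring

/-- The same for a list of coefficients. -/
lemma clo_coef' (c : ℝ) (hc : 0 < c) (d : ℕ) : ∃ C : ℝ, 1 ≤ C ∧ ∀ (a y : ℕ → ℝ) (δ : ℝ),
    0 ≤ δ → (∀ k < d + 1, |y k| ≤ 1) →
    (∀ k < d + 1, ∀ l < d + 1, k ≠ l → c ≤ |y k - y l|) →
    (∀ k < d + 1, |∑ i ∈ range (d + 1), a i * y k ^ i| ≤ δ) → ∀ i < d + 1, |a i| ≤ C * δ := by
  obtain ⟨C, hC, h⟩ := clo_coef c hc d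
  refine ⟨C, hC, ?_⟩
  intro a y δ hδ hyb hys hv i hi
  set p : ℝ[X] := ∑ i ∈ range (d + 1), Polynomial.C (a i) * X ^ i with hp
  have hdeg : p.natDegree ≤ d := by
    rw [hp]
    refine natDegree_sum_le_of_forall_le _ _ fun j hj => ?_
    rw [mem_range] at hj
    exact (natDegree_C_mul_X_pow_le _ _).trans (by omega)
  have hev : ∀ x, p.eval x = ∑ i ∈ range (d + 1), a i * x ^ i := by
    intro x
    rw [hp, eval_finsetSum]
    refine sum_congr rfl fun j _ => ?_
    rw [eval_mul, eval_C, eval_pow, eval_X]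
  have hco : p.coeff i = a i := by
    rw [hp, finsetSum_coeff]
    rw [sum_eq_single i]
    · rw [coeff_C_mul_X_pow, if_pos rfl]
    · intro j _ hj
      rw [coeff_C_mul_X_pow, if_neg (fun h => hj h.symm)]
    · intro h1
      exact absurd (mem_range.2 hi) h1
  rw [← hco]
  exact h p y δ hδ hdeg hyb hys (fun k hk => by rw [hev]; exact hv k hk) i

/-- From the interpolation error to a quadratic polynomial. -/
lemma quad_of_rho (t : ℕ → ℝ) (f : ℝ → ℝ) : ∃ q0 q1 q2 : ℝ, ∀ s,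
    f s - (q0 + q1 * s + q2 * s ^ 2) = rho t s f := by
  refine ⟨f (t 0) * (t 1 * t 2) / ((t 0 - t 1) * (t 0 - t 2)) +
      f (t 1) * (t 0 * t 2) / ((t 1 - t 0) * (t 1 - t 2)) +
      f (t 2) * (t 0 * t 1) / ((t 2 - t 0) * (t 2 - t 1)),
    -(f (t 0) * (t 1 + t 2) / ((t 0 - t 1) * (t 0 - t 2)) +
      f (t 1) * (t 0 + t 2) / ((t 1 - t 0) * (t 1 - t 2)) +
      f (t 2) * (t 0 + t 1) / ((t 2 - t 0) * (t 2 - t 1))),
    f (t 0) / ((t 0 - t 1) * (t 0 - t 2)) +
      f (t 1) / ((t 1 - t 0) * (t 1 - t 2)) +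
      f (t 2) / ((t 2 - t 0) * (t 2 - t 1)), ?_⟩
  intro s
  simp only [rho, cloL, one_ne_zero, if_true, if_false, OfNat.ofNat_ne_zero, OfNat.ofNat_ne_one]
  ring

/-- Reduction of the degree: `f`, `u f`, `u ^ 2 f`, `u ^ 3 f` nearly quadratic. -/
lemma clo_red (c : ℝ) (hc : 0 < c) : ∃ A : ℝ, 1 ≤ A ∧ ∀ (T : Set ℝ) (t : ℕ → ℝ) (f : ℝ → ℝ)
    (K : ℝ), (∀ s ∈ T, |s| ≤ 1) → (∀ i < 4, t i ∈ T) →
    (∀ i < 4, ∀ j < 4, i ≠ j → c ≤ |t i - t j|) → 0 ≤ K →
    (∀ s ∈ T, |rho t s (fun u => f u * u ^ 0)| ≤ K) →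
    ∃ q0 q1 q2 : ℝ, (∀ s ∈ T, |f s - (q0 + q1 * s + q2 * s ^ 2)| ≤ K) ∧
      ((∀ s ∈ T, |rho t s (fun u => f u * u ^ 1)| ≤ K) → |q2| ≤ A * K ∧
      ((∀ s ∈ T, |rho t s (fun u => f u * u ^ 2)| ≤ K) → |q1| ≤ A * K ∧
      ((∀ s ∈ T, |rho t s (fun u => f u * u ^ 3)| ≤ K) → |q0| ≤ A * K))) := by
  set M : ℝ := 1 + 12 / c ^ 2 with hM
  have hM1 : 1 ≤ M := by
    rw [hM]
    have : 0 ≤ 12 / c ^ 2 := by positivity
    linarith
  set a2 : ℝ := (1 + M) / c ^ 3 with ha2
  set a1 : ℝ := (1 + M + a2 * M) / c ^ 3 with ha1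
  set a0 : ℝ := (1 + M + a2 * M + a1 * M) / c ^ 3 with ha0
  have ha2' : 0 ≤ a2 := by positivity
  have ha1' : 0 ≤ a1 := by positivity
  have ha0' : 0 ≤ a0 := by positivity
  refine ⟨1 + a2 + a1 + a0, by linarith, ?_⟩
  intro T t f K hT ht hts hK h0
  obtain ⟨q0, q1, q2, hq⟩ := quad_of_rho t f
  have he : ∀ s ∈ T, |f s - (q0 + q1 * s + q2 * s ^ 2)| ≤ K := by
    intro s hs
    rw [hq s]
    have := h0 s hs
    simpa using this
  have ht3 : t 3 ∈ T := ht 3 (by norm_num)
  have hcube : c ^ 3 ≤ |rho t (t 3) (fun u => u ^ 3)| := by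
    rw [rho_cube c hc t hts, abs_mul, abs_mul]
    have h1 := hts 3 (by norm_num) 0 (by norm_num) (by norm_num)
    have h2 := hts 3 (by norm_num) 1 (by norm_num) (by norm_num)
    have h3 := hts 3 (by norm_num) 2 (by norm_num) (by norm_num)
    calc c ^ 3 = c * c * c := by ring
      _ ≤ |t 3 - t 0| * |t 3 - t 1| * |t 3 - t 2| :=
        mul_le_mul (mul_le_mul h1 h2 hc.le (abs_nonneg _)) h3 hc.le (by positivity)
  -- powers are bounded on `T`
  have hpow : ∀ n : ℕ, |rho t (t 3) (fun u => u ^ n)| ≤ M := by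
    intro n
    have := rho_le c hc T hT t ht hts (fun u => u ^ n) 1 (fun s hs => by
      rw [abs_pow]
      exact pow_le_one₀ (abs_nonneg _) (hT s hs)) (t 3) ht3
    rw [mul_one] at this
    exact this
  set e : ℝ → ℝ := fun s => f s - (q0 + q1 * s + q2 * s ^ 2) with hedef
  have herr : ∀ n : ℕ, |rho t (t 3) (fun u => e u * u ^ n)| ≤ M * K := by
    intro n
    exact rho_le c hc T hT t ht hts (fun u => e u * u ^ n) K (fun s hs => by
      rw [abs_mul, abs_pow]
      calc |e s| * |s| ^ n ≤ |e s| * 1 :=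
            mul_le_mul_of_nonneg_left (pow_le_one₀ (abs_nonneg _) (hT s hs)) (abs_nonneg _)
        _ ≤ K := by rw [mul_one]; exact he s hs) (t 3) ht3
  have hdec : ∀ n : ℕ, rho t (t 3) (fun u => f u * u ^ n) =
      q0 * rho t (t 3) (fun u => u ^ n) + q1 * rho t (t 3) (fun u => u ^ (n + 1)) +
      q2 * rho t (t 3) (fun u => u ^ (n + 2)) + rho t (t 3) (fun u => e u * u ^ n) := by
    intro n
    simp only [rho, hedef]
    ring
  have hz1 : rho t (t 3) (fun u => u ^ 1) = 0 := by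
    have := rho_quad c hc t hts (t 3) 0 1 0
    simpa using this
  have hz2 : rho t (t 3) (fun u => u ^ 2) = 0 := by
    have := rho_quad c hc t hts (t 3) 0 0 1
    simpa using this
  have hc3 : 0 < c ^ 3 := by positivity
  refine ⟨q0, q1, q2, he, fun h1 => ?_⟩
  have hq2 : |q2| ≤ a2 * K := by
    have e1 := hdec 1
    rw [hz1, hz2] at e1
    have e2 : q2 * rho t (t 3) (fun u => u ^ 3) = rho t (t 3) (fun u => f u * u ^ 1) -
        rho t (t 3) (fun u => e u * u ^ 1) := by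
      rw [e1]
      ring
    have e3 : |q2| * c ^ 3 ≤ K + M * K := by
      calc |q2| * c ^ 3 ≤ |q2| * |rho t (t 3) (fun u => u ^ 3)| :=
            mul_le_mul_of_nonneg_left hcube (abs_nonneg _)
        _ = |q2 * rho t (t 3) (fun u => u ^ 3)| := (abs_mul _ _).symm
        _ ≤ _ := by
            rw [e2]
            exact (abs_sub _ _).trans (add_le_add (h1 _ ht3) (herr 1))
    rw [ha2, div_mul_eq_mul_div, le_div_iff₀ hc3]
    linarith
  refine ⟨hq2.trans (mul_le_mul_of_nonneg_right (by linarith) hK), fun h2 => ?_⟩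
  have hq1 : |q1| ≤ a1 * K := by
    have e1 := hdec 2
    rw [hz2] at e1
    have e2 : q1 * rho t (t 3) (fun u => u ^ 3) = rho t (t 3) (fun u => f u * u ^ 2) -
        rho t (t 3) (fun u => e u * u ^ 2) - q2 * rho t (t 3) (fun u => u ^ 4) := by
      rw [e1]
      ring
    have e4 : |q2 * rho t (t 3) (fun u => u ^ 4)| ≤ a2 * K * M := by
      rw [abs_mul]
      exact mul_le_mul hq2 (hpow 4) (abs_nonneg _) (by positivity)
    have e3 : |q1| * c ^ 3 ≤ K + M * K + a2 * K * M := by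
      calc |q1| * c ^ 3 ≤ |q1| * |rho t (t 3) (fun u => u ^ 3)| :=
            mul_le_mul_of_nonneg_left hcube (abs_nonneg _)
        _ = |q1 * rho t (t 3) (fun u => u ^ 3)| := (abs_mul _ _).symm
        _ ≤ _ := by
            rw [e2]
            exact (abs_sub _ _).trans (add_le_add
              ((abs_sub _ _).trans (add_le_add (h2 _ ht3) (herr 2))) e4)
    rw [ha1, div_mul_eq_mul_div, le_div_iff₀ hc3]
    linarith
  refine ⟨hq1.trans (mul_le_mul_of_nonneg_right (by linarith) hK), fun h3 => ?_⟩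
  have hq0 : |q0| ≤ a0 * K := by
    have e1 := hdec 3
    have e2 : q0 * rho t (t 3) (fun u => u ^ 3) = rho t (t 3) (fun u => f u * u ^ 3) -
        rho t (t 3) (fun u => e u * u ^ 3) - q2 * rho t (t 3) (fun u => u ^ 5) -
        q1 * rho t (t 3) (fun u => u ^ 4) := by
      rw [e1]
      ring
    have e4 : |q2 * rho t (t 3) (fun u => u ^ 5)| ≤ a2 * K * M := by
      rw [abs_mul]
      exact mul_le_mul hq2 (hpow 5) (abs_nonneg _) (by positivity)
    have e5 : |q1 * rho t (t 3) (fun u => u ^ 4)| ≤ a1 * K * M := by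
      rw [abs_mul]
      exact mul_le_mul hq1 (hpow 4) (abs_nonneg _) (by positivity)
    have e3 : |q0| * c ^ 3 ≤ K + M * K + a2 * K * M + a1 * K * M := by
      calc |q0| * c ^ 3 ≤ |q0| * |rho t (t 3) (fun u => u ^ 3)| :=
            mul_le_mul_of_nonneg_left hcube (abs_nonneg _)
        _ = |q0 * rho t (t 3) (fun u => u ^ 3)| := (abs_mul _ _).symm
        _ ≤ _ := by
            rw [e2]
            exact (abs_sub _ _).trans (add_le_add ((abs_sub _ _).trans (add_le_add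
              ((abs_sub _ _).trans (add_le_add (h3 _ ht3) (herr 3))) e4)) e5)
    rw [ha0, div_mul_eq_mul_div, le_div_iff₀ hc3]
    linarith
  exact hq0.trans (mul_le_mul_of_nonneg_right (by linarith) hK)

/-- Binomial expansion, ordered by the powers of `z`. -/
lemma clo_expand (d : ℕ) (g : ℕ → ℝ) (z v : ℝ) :
    ∑ j ∈ range (d + 1), g j * (z + v) ^ j =
      ∑ a ∈ range (d + 1), (∑ m ∈ range (d + 1 - a), ((a + m).choose a : ℝ) * g (a + m) * v ^ m) *
        z ^ a := by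
  have h := sum_range_diag_flip (d + 1)
    (fun a m => ((a + m).choose a : ℝ) * g (a + m) * v ^ m * z ^ a)
  have h1 : ∑ a ∈ range (d + 1), (∑ m ∈ range (d + 1 - a),
      ((a + m).choose a : ℝ) * g (a + m) * v ^ m) * z ^ a =
      ∑ m ∈ range (d + 1), ∑ k ∈ range (d + 1 - m),
        ((m + k).choose m : ℝ) * g (m + k) * v ^ k * z ^ m := by
    refine sum_congr rfl fun a _ => ?_
    rw [sum_mul]
  rw [h1, ← h]
  refine sum_congr rfl fun j _ => ?_
  rw [add_pow, mul_sum]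
  refine sum_congr rfl fun a ha => ?_
  rw [mem_range] at ha
  have e : a + (j - a) = j := by omega
  rw [e]
  ring

/-- The main extraction of coefficients. -/
lemma clo_ext (c : ℝ) (hc : 0 < c) (d : ℕ) : ∃ A : ℝ, 1 ≤ A ∧ ∀ (T : Set ℝ) (t w y : ℕ → ℝ)
    (f : ℕ → ℝ → ℝ) (δ K : ℝ), CLOData d c T t w y f δ → 0 ≤ K → ∀ D ≤ d,
    (∀ j ≤ d, D < j → ∀ s ∈ T, |f j s| ≤ K * δ) →
    ∀ j ≤ D, ∀ m ≤ j, D - j + m ≤ 3 → ∀ s ∈ T,
      |rho t s (fun u => f j u * u ^ m)| ≤ A * (1 + K) * δ := by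
  obtain ⟨C1, hC1, h1⟩ := clo_coef' c hc d
  obtain ⟨C2, hC2, h2⟩ := clo_coef' c hc 3
  set M : ℝ := 1 + 12 / c ^ 2 with hM
  have hM1 : 1 ≤ M := by
    rw [hM]
    have : 0 ≤ 12 / c ^ 2 := by positivity
    linarith
  set B : ℝ := C1 * M + (d + 1) * (2 ^ d * M) with hB
  have hB1 : 1 ≤ C1 * M := by nlinarith
  have hB2 : (0 : ℝ) ≤ (d + 1) * (2 ^ d * M) := by positivity
  refine ⟨C2 * B, by rw [hB]; nlinarith, ?_⟩
  intro T t w y f δ K H hK D hD hneg j hj m hm hmj s hs
  have hδ := H.del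
  set G : ℕ → ℕ → ℝ := fun j m => rho t s (fun u => f j u * u ^ m) with hG
  -- the values at the nodes
  have hA : ∀ i < 4, ∀ k < d + 1,
      |rho t s (fun u => ∑ j ∈ range (d + 1), f j u * (y k + u * w i) ^ j)| ≤ M * δ := by
    intro i hi k hk
    obtain ⟨q0, q1, q2, hq⟩ := H.quad i hi k hk
    have e := rho_le c hc T H.bT t H.tT H.ts
      (fun u => ∑ j ∈ range (d + 1), f j u * (y k + u * w i) ^ j - (q0 + q1 * u + q2 * u ^ 2)) δ
      hq s hs
    rw [rho_sub, rho_quad c hc t H.ts, sub_zero] at e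
    exact e
  have hB' : ∀ i k : ℕ, rho t s (fun u => ∑ j ∈ range (d + 1), f j u * (y k + u * w i) ^ j) =
      ∑ a ∈ range (d + 1), (∑ m ∈ range (d + 1 - a),
        ((a + m).choose a : ℝ) * G (a + m) m * w i ^ m) * y k ^ a := by
    intro i k
    have e1 : (fun u => ∑ j ∈ range (d + 1), f j u * (y k + u * w i) ^ j) =
        fun u => ∑ a ∈ range (d + 1), ∑ m ∈ range (d + 1 - a),
          (((a + m).choose a : ℝ) * w i ^ m * y k ^ a) * (f (a + m) u * u ^ m) := by
      funext u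
      rw [clo_expand d (fun j => f j u) (y k) (u * w i)]
      refine sum_congr rfl fun a _ => ?_
      rw [sum_mul]
      refine sum_congr rfl fun m _ => ?_
      rw [mul_pow]
      ring
    rw [e1, rho_sum]
    refine sum_congr rfl fun a _ => ?_
    rw [rho_sum, sum_mul]
    refine sum_congr rfl fun m _ => ?_
    rw [rho_smul]
    simp only [hG]
    ring
  have hC : ∀ i < 4, ∀ a < d + 1, |∑ m ∈ range (d + 1 - a),
      ((a + m).choose a : ℝ) * G (a + m) m * w i ^ m| ≤ C1 * (M * δ) := by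
    intro i hi
    refine h1 (fun a => ∑ m ∈ range (d + 1 - a), ((a + m).choose a : ℝ) * G (a + m) m * w i ^ m)
      y (M * δ) (by positivity) H.yb H.ys ?_
    intro k hk
    rw [← hB']
    exact hA i hi k hk
  -- the polynomial in the slope
  set n := D - j + m with hn
  set a := D - n with ha
  have hnD : n ≤ D := by omega
  have ham : a + m = j := by omega
  have hGneg : ∀ j' ≤ d, D < j' → ∀ m' : ℕ, |G j' m'| ≤ M * (K * δ) := by
    intro j' hj' hDj' m'
    refine rho_le c hc T H.bT t H.tT H.ts _ (K * δ) (fun u hu => ?_) s hs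
    rw [abs_mul, abs_pow]
    calc |f j' u| * |u| ^ m' ≤ |f j' u| * 1 :=
          mul_le_mul_of_nonneg_left (pow_le_one₀ (abs_nonneg _) (H.bT u hu)) (abs_nonneg _)
      _ ≤ K * δ := by rw [mul_one]; exact hneg j' hj' hDj' u hu
  have hE : ∀ i < 3 + 1, |∑ m ∈ range (3 + 1),
      (if m ≤ n then ((a + m).choose a : ℝ) * G (a + m) m else 0) * w i ^ m| ≤
        B * (1 + K) * δ := by
    intro i hi
    have e1 : ∑ m ∈ range (3 + 1),
        (if m ≤ n then ((a + m).choose a : ℝ) * G (a + m) m else 0) * w i ^ m =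
        ∑ m ∈ range (n + 1), ((a + m).choose a : ℝ) * G (a + m) m * w i ^ m := by
      have e2 : range (n + 1) ⊆ range (3 + 1) := range_subset_range.2 (by omega)
      rw [← sum_subset e2]
      · refine sum_congr rfl fun m' hm' => ?_
        rw [mem_range] at hm'
        rw [if_pos (by omega)]
      · intro m' _ hm'
        rw [mem_range] at hm'
        rw [if_neg (by omega), zero_mul]
    have e3 := sum_range_add_sum_Ico (fun m => ((a + m).choose a : ℝ) * G (a + m) m * w i ^ m)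
      (show n + 1 ≤ d + 1 - a by omega)
    have e4 : |∑ m ∈ Ico (n + 1) (d + 1 - a), ((a + m).choose a : ℝ) * G (a + m) m * w i ^ m| ≤
        (d + 1) * (2 ^ d * M) * (K * δ) := by
      calc |∑ m ∈ Ico (n + 1) (d + 1 - a), ((a + m).choose a : ℝ) * G (a + m) m * w i ^ m|
          ≤ ∑ m ∈ Ico (n + 1) (d + 1 - a), |((a + m).choose a : ℝ) * G (a + m) m * w i ^ m| :=
            abs_sum_le_sum_abs _ _
        _ ≤ ∑ _m ∈ Ico (n + 1) (d + 1 - a), 2 ^ d * M * (K * δ) := by
            refine sum_le_sum fun m' hm' => ?_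
            rw [mem_Ico] at hm'
            rw [abs_mul, abs_mul, abs_pow]
            have f1 : |((a + m').choose a : ℝ)| ≤ 2 ^ d := by
              rw [Nat.abs_cast]
              calc ((a + m').choose a : ℝ) ≤ ((2 ^ (a + m') : ℕ) : ℝ) := by
                    exact_mod_cast Nat.choose_le_two_pow _ _
                _ = 2 ^ (a + m') := by push_cast; rfl
                _ ≤ 2 ^ d := pow_le_pow_right₀ (by norm_num) (by omega)
            have f2 := hGneg (a + m') (by omega) (by omega) m'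
            have f3 : |w i| ^ m' ≤ 1 := pow_le_one₀ (abs_nonneg _) (H.wb i hi)
            calc |((a + m').choose a : ℝ)| * |G (a + m') m'| * |w i| ^ m'
                ≤ 2 ^ d * (M * (K * δ)) * 1 :=
                  mul_le_mul (mul_le_mul f1 f2 (abs_nonneg _) (by positivity)) f3
                    (by positivity) (by positivity)
              _ = 2 ^ d * M * (K * δ) := by ring
        _ = ((Ico (n + 1) (d + 1 - a)).card : ℝ) * (2 ^ d * M * (K * δ)) := by
            rw [sum_const, nsmul_eq_mul]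
        _ ≤ (d + 1) * (2 ^ d * M * (K * δ)) := by
            refine mul_le_mul_of_nonneg_right ?_ (by positivity)
            rw [Nat.card_Ico]
            have : d + 1 - a - (n + 1) ≤ d + 1 := by omega
            exact_mod_cast this
        _ = (d + 1) * (2 ^ d * M) * (K * δ) := by ring
    have e5 := hC i hi a (by omega)
    rw [e1]
    have e6 : ∑ m ∈ range (n + 1), ((a + m).choose a : ℝ) * G (a + m) m * w i ^ m =
        ∑ m ∈ range (d + 1 - a), ((a + m).choose a : ℝ) * G (a + m) m * w i ^ m -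
        ∑ m ∈ Ico (n + 1) (d + 1 - a), ((a + m).choose a : ℝ) * G (a + m) m * w i ^ m := by
      rw [← e3]
      ring
    rw [e6]
    refine (abs_sub _ _).trans ?_
    have e7 : C1 * (M * δ) + (d + 1) * (2 ^ d * M) * (K * δ) ≤ B * (1 + K) * δ := by
      rw [hB]
      have g1 : 0 ≤ C1 * M * K * δ := by positivity
      have g2 : 0 ≤ (d + 1) * (2 ^ d * M) * δ := by positivity
      nlinarith
    linarith
  have hF := h2 (fun m => if m ≤ n then ((a + m).choose a : ℝ) * G (a + m) m else 0) w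
    (B * (1 + K) * δ) (by positivity) H.wb H.ws hE m (by omega)
  rw [if_pos (by omega : m ≤ n), abs_mul, Nat.abs_cast] at hF
  have hch : (1 : ℝ) ≤ ((a + m).choose a : ℝ) := by
    exact_mod_cast Nat.choose_pos (Nat.le_add_right a m)
  have hfin : |G (a + m) m| ≤ C2 * (B * (1 + K) * δ) := by
    refine le_trans ?_ hF
    calc |G (a + m) m| = 1 * |G (a + m) m| := (one_mul _).symm
      _ ≤ _ := mul_le_mul_of_nonneg_right hch (abs_nonneg _)
  rw [ham] at hfin
  calc |rho t s (fun u => f j u * u ^ m)| ≤ C2 * (B * (1 + K) * δ) := hfin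
    _ = C2 * B * (1 + K) * δ := by ring

/-- The coefficients of degree at least three are small. -/
lemma clo_small (c : ℝ) (hc : 0 < c) (d : ℕ) : ∀ k : ℕ, ∃ K : ℝ, 0 ≤ K ∧ ∀ (T : Set ℝ)
    (t w y : ℕ → ℝ) (f : ℕ → ℝ → ℝ) (δ : ℝ), CLOData d c T t w y f δ →
    ∀ j ≤ d, 3 ≤ j → d - k < j → ∀ s ∈ T, |f j s| ≤ K * δ := by
  obtain ⟨A, hA, hext⟩ := clo_ext c hc d
  obtain ⟨A', hA', hred⟩ := clo_red c hc
  intro k
  induction k with
  | zero =>
    refine ⟨0, le_refl _, ?_⟩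
    intro T t w y f δ _ j hj _ hj2
    omega
  | succ k ih =>
    obtain ⟨K, hK, ih⟩ := ih
    set K' : ℝ := A * (1 + K) * (1 + 3 * A') with hK'
    have hK'0 : 0 ≤ K' := by positivity
    refine ⟨max K K', le_max_of_le_left hK, ?_⟩
    intro T t w y f δ H j hj hj3 hjk s hs
    have hδ := H.del
    by_cases hc1 : d - k < j
    · exact (ih T t w y f δ H j hj hj3 hc1 s hs).trans
        (mul_le_mul_of_nonneg_right (le_max_left _ _) hδ)
    · -- now `j = d - k`
      have hjD : j = d - k := by omega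
      have hE := hext T t w y f δ K H hK j hj (fun j' hj' hlt u hu =>
        ih T t w y f δ H j' hj' (by omega) (by omega) u hu)
      have hE' : ∀ m ≤ 3, ∀ u ∈ T, |rho t u (fun v => f j v * v ^ m)| ≤ A * (1 + K) * δ :=
        fun m hm => hE j (le_refl _) m (by omega) (by omega)
      obtain ⟨q0, q1, q2, g0, g1⟩ := hred T t (f j) (A * (1 + K) * δ) H.bT H.tT H.ts
        (by positivity) (hE' 0 (by norm_num))
      obtain ⟨b2, g2⟩ := g1 (hE' 1 (by norm_num))
      obtain ⟨b1, g3⟩ := g2 (hE' 2 (by norm_num))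
      have b0 := g3 (hE' 3 (by norm_num))
      have hs1 := H.bT s hs
      have hs2 : |s ^ 2| ≤ 1 := by
        rw [abs_pow]
        exact pow_le_one₀ (abs_nonneg _) hs1
      have e1 : |f j s| ≤ K' * δ := by
        have e2 : f j s = (f j s - (q0 + q1 * s + q2 * s ^ 2)) + (q0 + q1 * s + q2 * s ^ 2) := by
          ring
        have e3 : |q1 * s| ≤ A' * (A * (1 + K) * δ) := by
          rw [abs_mul]
          calc |q1| * |s| ≤ |q1| * 1 := mul_le_mul_of_nonneg_left hs1 (abs_nonneg _)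
            _ ≤ _ := by rw [mul_one]; exact b1
        have e4 : |q2 * s ^ 2| ≤ A' * (A * (1 + K) * δ) := by
          rw [abs_mul]
          calc |q2| * |s ^ 2| ≤ |q2| * 1 := mul_le_mul_of_nonneg_left hs2 (abs_nonneg _)
            _ ≤ _ := by rw [mul_one]; exact b2
        rw [e2]
        calc |(f j s - (q0 + q1 * s + q2 * s ^ 2)) + (q0 + q1 * s + q2 * s ^ 2)|
            ≤ |f j s - (q0 + q1 * s + q2 * s ^ 2)| + |q0 + q1 * s + q2 * s ^ 2| := abs_add_le _ _
          _ ≤ A * (1 + K) * δ + (|q0| + |q1 * s| + |q2 * s ^ 2|) := by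
              refine add_le_add (g0 s hs) ?_
              exact (abs_add_le _ _).trans (add_le_add (abs_add_le _ _) (le_refl _))
          _ ≤ A * (1 + K) * δ + (A' * (A * (1 + K) * δ) + A' * (A * (1 + K) * δ) +
                A' * (A * (1 + K) * δ)) := by linarith
          _ = K' * δ := by rw [hK']; ring
      exact e1.trans (mul_le_mul_of_nonneg_right (le_max_right _ _) hδ)

/-- The coefficients are polynomials. -/
lemma clo_parts (c : ℝ) (hc : 0 < c) (d : ℕ) : ∃ B : ℝ, 1 ≤ B ∧ ∀ (T : Set ℝ)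
    (t w y : ℕ → ℝ) (f : ℕ → ℝ → ℝ) (δ : ℝ), CLOData d c T t w y f δ →
    ∀ j ≤ d, ∃ q0 q1 q2 : ℝ, (1 ≤ j → q2 = 0) ∧ (2 ≤ j → q1 = 0) ∧ (3 ≤ j → q0 = 0) ∧
      ∀ s ∈ T, |f j s - (q0 + q1 * s + q2 * s ^ 2)| ≤ B * δ := by
  obtain ⟨A, hA, hext⟩ := clo_ext c hc d
  obtain ⟨A', hA', hred⟩ := clo_red c hc
  obtain ⟨K, hK, hsm⟩ := clo_small c hc d d
  set A1 : ℝ := A * (1 + K) with hA1
  have hA1' : 1 ≤ A1 := by rw [hA1]; nlinarith
  refine ⟨K + A1 * (1 + 2 * A'), by nlinarith, ?_⟩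
  intro T t w y f δ H j hj
  have hδ := H.del
  by_cases hj3 : 3 ≤ j
  · refine ⟨0, 0, 0, fun _ => rfl, fun _ => rfl, fun _ => rfl, fun s hs => ?_⟩
    have h1 := hsm T t w y f δ H j hj hj3 (by omega) s hs
    have e : f j s - (0 + 0 * s + 0 * s ^ 2) = f j s := by ring
    rw [e]
    refine h1.trans (mul_le_mul_of_nonneg_right ?_ hδ)
    have : 0 ≤ A1 * (1 + 2 * A') := by positivity
    linarith
  · -- `D = min d 2`
    have hE := hext T t w y f δ K H hK (min d 2) (min_le_left _ _) (fun j' hj' hlt u hu =>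
        hsm T t w y f δ H j' hj' (by omega) (by omega) u hu) j (by omega)
    have hE' : ∀ m ≤ j, ∀ u ∈ T, |rho t u (fun v => f j v * v ^ m)| ≤ A1 * δ :=
      fun m hm => hE m hm (by omega)
    obtain ⟨q0, q1, q2, g0, g1⟩ := hred T t (f j) (A1 * δ) H.bT H.tT H.ts
      (by positivity) (hE' 0 (by omega))
    refine ⟨q0, if 2 ≤ j then 0 else q1, if 1 ≤ j then 0 else q2, fun h => if_pos h,
      fun h => if_pos h, fun h => absurd h hj3, fun s hs => ?_⟩
    have hs1 := H.bT s hs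
    have hs2 : |s ^ 2| ≤ 1 := by
      rw [abs_pow]
      exact pow_le_one₀ (abs_nonneg _) hs1
    have b2 : |(if 1 ≤ j then q2 else 0) * s ^ 2| ≤ A' * (A1 * δ) := by
      by_cases h1 : 1 ≤ j
      · rw [if_pos h1, abs_mul]
        calc |q2| * |s ^ 2| ≤ |q2| * 1 := mul_le_mul_of_nonneg_left hs2 (abs_nonneg _)
          _ ≤ _ := by rw [mul_one]; exact (g1 (hE' 1 h1)).1
      · rw [if_neg h1, zero_mul, abs_zero]
        positivity
    have b1 : |(if 2 ≤ j then q1 else 0) * s| ≤ A' * (A1 * δ) := by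
      by_cases h1 : 2 ≤ j
      · rw [if_pos h1, abs_mul]
        calc |q1| * |s| ≤ |q1| * 1 := mul_le_mul_of_nonneg_left hs1 (abs_nonneg _)
          _ ≤ _ := by rw [mul_one]; exact ((g1 (hE' 1 (by omega))).2 (hE' 2 h1)).1
      · rw [if_neg h1, zero_mul, abs_zero]
        positivity
    have e : f j s - (q0 + (if 2 ≤ j then 0 else q1) * s + (if 1 ≤ j then 0 else q2) * s ^ 2) =
        (f j s - (q0 + q1 * s + q2 * s ^ 2)) + (if 2 ≤ j then q1 else 0) * s +
          (if 1 ≤ j then q2 else 0) * s ^ 2 := by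
      split_ifs <;> ring
    rw [e]
    refine (abs_add_le _ _).trans ((add_le_add ((abs_add_le _ _).trans
      (add_le_add (g0 s hs) b1)) b2).trans ?_)
    have : 0 ≤ K * δ := by positivity
    nlinarith

/-- Row CLO. -/
theorem clo_thm : CLOStmt := by
  intro d c hc
  obtain ⟨B, hB, hp⟩ := clo_parts c hc d
  refine ⟨(d + 1) * B, ?_, ?_⟩
  · have : (0 : ℝ) ≤ d := Nat.cast_nonneg _
    nlinarith
  intro T t w y f δ H
  have hδ := H.del
  have hp' : ∀ j : ℕ, ∃ q0 q1 q2 : ℝ, (1 ≤ j → q2 = 0) ∧ (2 ≤ j → q1 = 0) ∧ (3 ≤ j → q0 = 0) ∧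
      (d < j → q0 = 0 ∧ q1 = 0 ∧ q2 = 0) ∧
      ∀ s ∈ T, j ≤ d → |f j s - (q0 + q1 * s + q2 * s ^ 2)| ≤ B * δ := by
    intro j
    by_cases hj : j ≤ d
    · obtain ⟨q0, q1, q2, h1, h2, h3, h4⟩ := hp T t w y f δ H j hj
      exact ⟨q0, q1, q2, h1, h2, h3, fun h => absurd hj (not_le.2 h), fun s hs _ => h4 s hs⟩
    · exact ⟨0, 0, 0, fun _ => rfl, fun _ => rfl, fun _ => rfl, fun _ => ⟨rfl, rfl, rfl⟩,
        fun s _ h => absurd h hj⟩
  choose q0 q1 q2 h2 h1 h0 hd happ using hp'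
  refine ⟨q0 0, q1 0, q0 1, q2 0, q1 1, q0 2, ?_⟩
  intro s hs z hz
  have key : ∑ j ∈ range (d + 1), (q0 j + q1 j * s + q2 j * s ^ 2) * z ^ j =
      q0 0 + q1 0 * s + q0 1 * z + q2 0 * s ^ 2 + q1 1 * (s * z) + q0 2 * z ^ 2 := by
    have hsub : range (d + 1) ⊆ range (d + 3) := range_subset_range.2 (by omega)
    rw [sum_subset hsub (f := fun j => (q0 j + q1 j * s + q2 j * s ^ 2) * z ^ j)]
    · rw [sum_range_succ', sum_range_succ', sum_range_succ']
      have hzero : ∑ k ∈ range d, (q0 (k + 1 + 1 + 1) + q1 (k + 1 + 1 + 1) * s +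
          q2 (k + 1 + 1 + 1) * s ^ 2) * z ^ (k + 1 + 1 + 1) = 0 := by
        refine sum_eq_zero fun k _ => ?_
        rw [h2 _ (by omega), h1 _ (by omega), h0 _ (by omega)]
        ring
      rw [hzero]
      have e1 : q2 (0 + 1) = 0 := h2 _ (by omega)
      have e2 : q2 (0 + 1 + 1) = 0 := h2 _ (by omega)
      have e3 : q1 (0 + 1 + 1) = 0 := h1 _ (by omega)
      rw [e1, e2, e3]
      norm_num
      ring
    · intro j _ hj
      rw [mem_range] at hj
      obtain ⟨a1, a2, a3⟩ := hd j (by omega)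
      rw [a1, a2, a3]
      ring
  rw [← key, ← sum_sub_distrib]
  calc |∑ j ∈ range (d + 1), (f j s * z ^ j - (q0 j + q1 j * s + q2 j * s ^ 2) * z ^ j)|
      ≤ ∑ j ∈ range (d + 1), |f j s * z ^ j - (q0 j + q1 j * s + q2 j * s ^ 2) * z ^ j| :=
        abs_sum_le_sum_abs _ _
    _ ≤ ∑ _j ∈ range (d + 1), B * δ := by
        refine sum_le_sum fun j hj => ?_
        rw [mem_range] at hj
        have e : f j s * z ^ j - (q0 j + q1 j * s + q2 j * s ^ 2) * z ^ j =
            (f j s - (q0 j + q1 j * s + q2 j * s ^ 2)) * z ^ j := by ring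
        rw [e, abs_mul, abs_pow]
        calc |f j s - (q0 j + q1 j * s + q2 j * s ^ 2)| * |z| ^ j
            ≤ |f j s - (q0 j + q1 j * s + q2 j * s ^ 2)| * 1 :=
              mul_le_mul_of_nonneg_left (pow_le_one₀ (abs_nonneg _) hz) (abs_nonneg _)
          _ ≤ B * δ := by rw [mul_one]; exact happ j s hs (by omega)
    _ = (d + 1) * B * δ := by
        rw [sum_const, card_range, nsmul_eq_mul]
        push_cast
        ring

end Pool.KAL
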