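import Pool.Agent.H56.KAL.Stmts

/-!
# A polynomial is rarely small compared with its derivative
-/

set_option autoImplicit false

namespace Pool.KAL

open Finset Real MeasureTheory Polynomial

namespace DER

theorem near_root (k : ℕ) (P : Polynomial ℝ) (ε : ℝ) (hk : P.natDegree ≤ k) (hε : 0 ≤ ε)
    (hP : P ≠ 0) (x : ℝ) (hx : |P.eval x| ≤ ε * |P.derivative.eval x|) :
    ∃ z ∈ (P.map (algebraMap ℝ ℂ)).roots.toFinset, |x - z.re| ≤ k * ε := by
  classical
  set Q : Polynomial ℂ := P.map (algebraMap ℝ ℂ) with hQ
  have hQ0 : Q ≠ 0 := by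
    rw [hQ]
    exact (Polynomial.map_ne_zero_iff (algebraMap ℝ ℂ).injective).2 hP
  have hev : Q.eval (x : ℂ) = ((P.eval x : ℝ) : ℂ) := by
    have h := Polynomial.eval_map_algebraMap P (x : ℂ)
    rw [hQ, h]
    have h2 := Polynomial.aeval_algebraMap_apply ℂ x P
    simpa using h2
  have hev' : Q.derivative.eval (x : ℂ) = ((P.derivative.eval x : ℝ) : ℂ) := by
    rw [hQ, Polynomial.derivative_map, Polynomial.eval_map_algebraMap]
    have h2 := Polynomial.aeval_algebraMap_apply ℂ x P.derivative
    simpa using h2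
  by_cases h0 : P.eval x = 0
  · refine ⟨(x : ℂ), ?_, ?_⟩
    · rw [Multiset.mem_toFinset, Polynomial.mem_roots hQ0, Polynomial.IsRoot.def, hev, h0]
      simp
    · simp only [Complex.ofReal_re, sub_self, abs_zero]
      positivity
  · have hpos : 0 < |P.eval x| := abs_pos.2 h0
    have hε' : 0 < ε := by
      rcases hε.lt_or_eq with h | h
      · exact h
      · rw [← h, zero_mul] at hx
        linarith
    have hne : Q.eval (x : ℂ) ≠ 0 := by
      rw [hev]
      exact_mod_cast h0
    have hsum := (IsAlgClosed.splits Q).eval_derivative_div_eval_of_ne_zero hne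
    have hlow : 1 / ε ≤ ‖Q.derivative.eval (x : ℂ) / Q.eval (x : ℂ)‖ := by
      rw [norm_div, hev, hev', Complex.norm_real, Complex.norm_real, Real.norm_eq_abs,
        Real.norm_eq_abs, div_le_div_iff₀ hε' hpos]
      linarith
    by_contra hcon
    push Not at hcon
    have hcard : (Multiset.card Q.roots : ℝ) ≤ k := by
      have h1 : Multiset.card Q.roots ≤ Q.natDegree := Polynomial.card_roots' Q
      have h2 : Q.natDegree = P.natDegree := by
        rw [hQ]
        exact Polynomial.natDegree_map_eq_of_injective (algebraMap ℝ ℂ).injective P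
      exact_mod_cast h1.trans (h2.le.trans hk)
    have hterm : ∀ z ∈ Q.roots, (k : ℝ) * ε < ‖(x : ℂ) - z‖ := by
      intro z hz
      have h1 := hcon z (Multiset.mem_toFinset.2 hz)
      have h2 : |x - z.re| ≤ ‖(x : ℂ) - z‖ := by
        have := Complex.abs_re_le_norm ((x : ℂ) - z)
        simpa using this
      linarith
    have hroots : Q.roots ≠ 0 := by
      intro h
      rw [h] at hsum
      rw [hsum] at hlow
      simp only [Multiset.map_zero, Multiset.sum_zero, norm_zero] at hlow
      have : 0 < 1 / ε := by positivity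
      linarith
    have hk1 : (1 : ℝ) ≤ k := by
      have h1 : 1 ≤ Multiset.card Q.roots := Multiset.card_pos.2 hroots
      have h2 : (1 : ℝ) ≤ (Multiset.card Q.roots : ℝ) := by exact_mod_cast h1
      linarith
    have hkε : 0 < (k : ℝ) * ε := by positivity
    have hnorm : ‖(Q.roots.map fun z => 1 / ((x : ℂ) - z)).sum‖ < 1 / ε := by
      have hA : ∀ s : Multiset ℂ, (∀ z ∈ s, (k : ℝ) * ε < ‖(x : ℂ) - z‖) → s ≠ 0 →
          ‖(s.map fun z => 1 / ((x : ℂ) - z)).sum‖ < (Multiset.card s : ℝ) * (1 / (k * ε)) := by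
        intro s
        induction s using Multiset.induction with
        | empty => intro _ h; exact absurd rfl h
        | cons a s ih =>
          intro hs _
          have ha : ‖1 / ((x : ℂ) - a)‖ < 1 / (k * ε) := by
            rw [norm_div, norm_one]
            exact one_div_lt_one_div_of_lt hkε (hs a (Multiset.mem_cons_self a s))
          rw [Multiset.map_cons, Multiset.sum_cons, Multiset.card_cons]
          by_cases hs0 : s = 0
          · rw [hs0]
            simpa using ha
          · have h2 := ih (fun z hz => hs z (Multiset.mem_cons_of_mem hz)) hs0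
            calc ‖1 / ((x : ℂ) - a) + (s.map fun z => 1 / ((x : ℂ) - z)).sum‖
                ≤ ‖1 / ((x : ℂ) - a)‖ + ‖(s.map fun z => 1 / ((x : ℂ) - z)).sum‖ :=
                  norm_add_le _ _
              _ < 1 / (k * ε) + (Multiset.card s : ℝ) * (1 / (k * ε)) := by linarith
              _ = _ := by push_cast; ring
      calc ‖(Q.roots.map fun z => 1 / ((x : ℂ) - z)).sum‖
          < (Multiset.card Q.roots : ℝ) * (1 / (k * ε)) := hA Q.roots hterm hroots
        _ ≤ k * (1 / (k * ε)) := by
            apply mul_le_mul_of_nonneg_right hcard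
            positivity
        _ = 1 / ε := by field_simp
    rw [hsum] at hlow
    linarith

end DER

theorem der_thm : DERStmt := by
  classical
  intro k P ε hk hε hP
  set R : Finset ℂ := (P.map (algebraMap ℝ ℂ)).roots.toFinset with hR
  have hcard : R.card ≤ k := by
    calc R.card ≤ Multiset.card (P.map (algebraMap ℝ ℂ)).roots := Multiset.toFinset_card_le _
      _ ≤ (P.map (algebraMap ℝ ℂ)).natDegree := Polynomial.card_roots' _
      _ = P.natDegree := Polynomial.natDegree_map_eq_of_injective (algebraMap ℝ ℂ).injective P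
      _ ≤ k := hk
  have hsub : {x : ℝ | |P.eval x| ≤ ε * |P.derivative.eval x|} ⊆
      ⋃ z ∈ R, Set.Icc (z.re - k * ε) (z.re + k * ε) := by
    intro x hx
    obtain ⟨z, hz, hxz⟩ := DER.near_root k P ε hk hε hP x hx
    rw [Set.mem_iUnion₂]
    refine ⟨z, hz, ?_⟩
    rw [abs_le] at hxz
    constructor <;> linarith [hxz.1, hxz.2]
  calc volume {x : ℝ | |P.eval x| ≤ ε * |P.derivative.eval x|}
      ≤ volume (⋃ z ∈ R, Set.Icc (z.re - k * ε) (z.re + k * ε)) := measure_mono hsub
    _ ≤ ∑ z ∈ R, volume (Set.Icc (z.re - k * ε) (z.re + k * ε)) := measure_biUnion_finset_le _ _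
    _ = ∑ z ∈ R, ENNReal.ofReal (2 * (k * ε)) := by
        refine Finset.sum_congr rfl fun z _ => ?_
        rw [Real.volume_Icc]
        congr 1
        ring
    _ = R.card • ENNReal.ofReal (2 * (k * ε)) := by rw [Finset.sum_const]
    _ ≤ k • ENNReal.ofReal (2 * (k * ε)) := by
        exact nsmul_le_nsmul_left zero_le hcard
    _ = ENNReal.ofReal (2 * (k : ℝ) ^ 2 * ε) := by
        rw [← ENNReal.ofReal_nsmul, nsmul_eq_mul]
        congr 1
        ring

end Pool.KAL
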